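import Pool.Agent.Helper14.T3.StC

/-!
# Project T3, module Dect3: decomposition of a symbol of level `3^n`, twisted values

The proof is the one of `Pool.Agent.Helper72.W3.M_B3a`, with signs as in `Pool.Agent.Helper55.TT.M_DectD`.
-/

set_option autoImplicit false

namespace Pool.Agent.Helper84.T3

open Pool.Agent.Helper14.T3 Pool.Agent.Helper14.W3 Pool.Agent.Helper78.W3
open Pool.Agent.Helper14.CV (Homog EqC act Tl act_add act_sub act_neg act_smul)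

/-- An operator which commutes with the two others preserves vanishing averages. -/
private lemma av_comm {X P Q P' Q' : ℤ → ℤ → ℂ} {a b c d : ℤ} (hd : a * d - b * c ≠ 0)
    (h : EqC (X + P + Q) 0) (hP : EqC P' (act a b c d P)) (hQ : EqC Q' (act a b c d Q)) :
    EqC (act a b c d X + P' + Q') 0 := by
  have h1 : EqC (act a b c d X + P' + Q') (act a b c d X + act a b c d P + act a b c d Q) :=
    ((EqC.refl _).add hP).add hQ
  have h2 := h.act hd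
  exact h1.trans h2

/-- The same for an operator which exchanges the two others. -/
private lemma av_swap {X P Q P' Q' : ℤ → ℤ → ℂ} {a b c d : ℤ} (hd : a * d - b * c ≠ 0)
    (h : EqC (X + P + Q) 0) (hP : EqC P' (act a b c d Q)) (hQ : EqC Q' (act a b c d P)) :
    EqC (act a b c d X + P' + Q') 0 := by
  have e : X + P + Q = X + Q + P := by abel
  rw [e] at h
  exact av_comm hd h hP hQ

/-- Vanishing averages of linear combinations. -/
private lemma av_add {X Y P Q P' Q' : ℤ → ℤ → ℂ} (h : EqC (X + P + Q) 0)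
    (h' : EqC (Y + P' + Q') 0) : EqC ((X + Y) + (P + P') + (Q + Q')) 0 := by
  have e : (X + Y) + (P + P') + (Q + Q') = (X + P + Q) + (Y + P' + Q') := by abel
  have := h.add h'
  rw [← e, add_zero] at this
  exact this

private lemma av_sub {X Y P Q P' Q' : ℤ → ℤ → ℂ} (h : EqC (X + P + Q) 0)
    (h' : EqC (Y + P' + Q') 0) : EqC ((X - Y) + (P - P') + (Q - Q')) 0 := by
  have e : (X - Y) + (P - P') + (Q - Q') = (X + P + Q) - (Y + P' + Q') := by abel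
  have := h.sub h'
  rw [← e, sub_zero] at this
  exact this

private lemma av_smul {X P Q : ℤ → ℤ → ℂ} (s : ℂ) (h : EqC (X + P + Q) 0) :
    EqC (s • X + s • P + s • Q) 0 := by
  have := h.smul s
  rw [smul_zero, smul_add, smul_add] at this
  exact this

/-- The average over a group of order three is invariant, and the difference has average `0`. -/
private lemma proj {G : ℤ → ℤ → ℂ} {a b c d a' b' c' d' : ℤ} (hd : a * d - b * c ≠ 0)
    (h1 : EqC (act a b c d (act a b c d G)) (act a' b' c' d' G))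
    (h2 : EqC (act a b c d (act a' b' c' d' G)) G)
    (h3 : EqC (act a b c d (act a b c d ((1 / 3 : ℂ) • (G + act a b c d G + act a' b' c' d' G))))
      (act a' b' c' d' ((1 / 3 : ℂ) • (G + act a b c d G + act a' b' c' d' G)))) :
    EqC (act a b c d ((1 / 3 : ℂ) • (G + act a b c d G + act a' b' c' d' G)))
      ((1 / 3 : ℂ) • (G + act a b c d G + act a' b' c' d' G)) ∧
    EqC ((G - (1 / 3 : ℂ) • (G + act a b c d G + act a' b' c' d' G)) +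
      act a b c d (G - (1 / 3 : ℂ) • (G + act a b c d G + act a' b' c' d' G)) +
      act a' b' c' d' (G - (1 / 3 : ℂ) • (G + act a b c d G + act a' b' c' d' G))) 0 := by
  set A : ℤ → ℤ → ℂ := (1 / 3 : ℂ) • (G + act a b c d G + act a' b' c' d' G) with hA
  have k1 : EqC (act a b c d A) A := by
    have h4 : EqC (act a b c d G + act a b c d (act a b c d G) + act a b c d (act a' b' c' d' G))
        (act a b c d G + act a' b' c' d' G + G) := ((EqC.refl _).add h1).add h2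
    have h5 := h4.smul (1 / 3 : ℂ)
    have e : (1 / 3 : ℂ) • (act a b c d G + act a' b' c' d' G + G) = A := by
      rw [hA]
      congr 1
      abel
    rw [e] at h5
    exact h5
  have k2 : EqC (act a' b' c' d' A) A := h3.symm.trans ((k1.act hd).trans k1)
  refine ⟨k1, ?_⟩
  have h6 : EqC (A + act a b c d A + act a' b' c' d' A) (A + A + A) :=
    ((EqC.refl A).add k1).add k2
  have e1 : A + A + A = G + act a b c d G + act a' b' c' d' G := by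
    rw [hA, ← add_smul, ← add_smul]
    norm_num
  have e2 : (G - A) + act a b c d (G - A) + act a' b' c' d' (G - A) =
      (G + act a b c d G + act a' b' c' d' G) - (A + act a b c d A + act a' b' c' d' A) := by
    rw [act_sub, act_sub]
    abel
  rw [e2]
  have h7 := (EqC.refl (G + act a b c d G + act a' b' c' d' G)).sub h6
  rw [e1, sub_self] at h7
  exact h7

private lemma swap_add {a b c d : ℤ} {X Y : ℤ → ℤ → ℂ} (h : EqC (act a b c d X) Y)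
    (h' : EqC (act a b c d Y) X) :
    EqC (act a b c d ((1 / 2 : ℂ) • (X + Y))) ((1 / 2 : ℂ) • (X + Y)) := by
  have h2 := (h.add h').smul (1 / 2 : ℂ)
  rw [add_comm Y X] at h2
  exact h2

private lemma swap_sub {a b c d : ℤ} {X Y : ℤ → ℤ → ℂ} (h : EqC (act a b c d X) Y)
    (h' : EqC (act a b c d Y) X) :
    EqC (act a b c d ((1 / 2 : ℂ) • (X - Y))) (-((1 / 2 : ℂ) • (X - Y))) := by
  have h2 := (h.sub h').smul (1 / 2 : ℂ)
  have e : (1 / 2 : ℂ) • (Y - X) = -((1 / 2 : ℂ) • (X - Y)) := by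
    rw [← smul_neg, neg_sub]
  rw [e] at h2
  exact h2

private theorem half_add {X Y X' Y' : ℤ → ℤ → ℂ} (h : EqC X X') (h' : EqC Y Y') :
    EqC ((1 / 2 : ℂ) • (X + Y)) ((1 / 2 : ℂ) • (X' + Y')) := (h.add h').smul _

private theorem half_sub {X Y X' Y' : ℤ → ℤ → ℂ} (h : EqC X X') (h' : EqC Y Y') :
    EqC ((1 / 2 : ℂ) • (X - Y)) ((1 / 2 : ℂ) • (X' - Y')) := (h.sub h').smul _

private theorem avg_add {a b c d : ℤ} {X Y X' Y' : ℤ → ℤ → ℂ} (h : EqC (act a b c d X) X')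
    (h' : EqC (act a b c d Y) Y') :
    EqC (act a b c d ((1 / 2 : ℂ) • (X + Y))) ((1 / 2 : ℂ) • (X' + Y')) := by
  rw [act_smul, act_add]
  exact half_add h h'

private theorem avg_sub {a b c d : ℤ} {X Y X' Y' : ℤ → ℤ → ℂ} (h : EqC (act a b c d X) X')
    (h' : EqC (act a b c d Y) Y') :
    EqC (act a b c d ((1 / 2 : ℂ) • (X - Y))) ((1 / 2 : ℂ) • (X' - Y')) := by
  rw [act_smul, act_sub]
  exact half_sub h h'

private theorem alg1 {κ : ℂ} (hκ : κ * κ = 1) (X Y : ℤ → ℤ → ℂ) :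
    (1 / 2 : ℂ) • (Y + κ • X) = κ • ((1 / 2 : ℂ) • (X + κ • Y)) := by
  funext x y
  simp only [Pi.smul_apply, Pi.add_apply, smul_eq_mul]
  linear_combination (-(1 / 2) * Y x y) * hκ

private theorem alg2 (κ : ℂ) (X Y : ℤ → ℤ → ℂ) :
    (1 / 2 : ℂ) • (κ • X - κ • Y) = κ • ((1 / 2 : ℂ) • (X - Y)) := by
  funext x y
  simp only [Pi.smul_apply, Pi.sub_apply, smul_eq_mul]
  ring

private theorem ev5 {κ : ℂ} (hκ : κ * κ = 1) (ev : (ℤ → ℤ → ℂ) →ₗ[ℂ] (ℕ → ℕ → ℂ))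
    {X Y : ℤ → ℤ → ℂ} (h : ev Y = κ • ev X) : ev ((1 / 2 : ℂ) • (X + κ • Y)) = ev X := by
  rw [map_smul, map_add, map_smul, h, smul_smul, hκ, one_smul]
  funext i j
  simp only [Pi.smul_apply, Pi.add_apply, smul_eq_mul]
  ring

private theorem ev6 (ev : (ℤ → ℤ → ℂ) →ₗ[ℂ] (ℕ → ℕ → ℂ))
    {X Y : ℤ → ℤ → ℂ} (h : ev Y = -ev X) : ev ((1 / 2 : ℂ) • (X - Y)) = ev X := by
  rw [map_smul, map_sub, h]
  funext i j
  simp only [Pi.smul_apply, Pi.sub_apply, Pi.neg_apply, smul_eq_mul]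
  ring

private theorem ev7 {κ : ℂ} (hκ : κ * κ = 1) (ev : (ℤ → ℤ → ℂ) →ₗ[ℂ] (ℕ → ℕ → ℂ))
    {A C W : ℤ → ℤ → ℂ} (h : ev W = κ • ev A) : ev (C + κ • W) = ev C + ev A := by
  rw [map_add, map_smul, h, smul_smul, hκ, one_smul]

/-- The general decomposition with a sign `κ`. -/
private theorem core (hNrm : S3Nrm) (hLvl : S3Lvl) (hCom : S3Com) (n : ℕ) (κ : ℂ)
    (hκ : κ * κ = 1) (ev : (ℤ → ℤ → ℂ) →ₗ[ℂ] (ℕ → ℕ → ℂ))
    (hev : ∀ X : ℤ → ℤ → ℂ, Sym3 0 n X → ev (act 0 (-1) (3 ^ n) 0 X) = κ • ev X ∧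
      ev (act (-1) 0 0 1 X) = -ev X) (G : ℤ → ℤ → ℂ) (hn : 3 ≤ n) (hG : Sym3 0 n G) :
    ∃ G0 G1 : ℤ → ℤ → ℂ, Sym3 0 (n - 1) G0 ∧
      (Sym3 0 n G1 ∧ EqC (G1 + act 3 1 0 3 G1 + act 3 2 0 3 G1) 0 ∧
        EqC (G1 + act 1 0 (3 ^ (n - 1)) 1 G1 + act 1 0 (2 * 3 ^ (n - 1)) 1 G1) 0 ∧
        EqC (act 0 (-1) (3 ^ n) 0 G1) (κ • G1) ∧
        EqC (act (-1) 0 0 1 G1) (-G1)) ∧ ev G = ev G0 + ev G1 := by
  have hn2 : 2 ≤ n := by omega
  have hpow1 : (3 : ℤ) ^ n ≠ 0 := pow_ne_zero _ three_ne_zero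
  have dt : (3 : ℤ) * 3 - 1 * 0 ≠ 0 := by norm_num
  have ds : (1 : ℤ) * 1 - 0 * 3 ^ (n - 1) ≠ 0 := by norm_num
  have ds2 : (1 : ℤ) * 1 - 0 * (2 * 3 ^ (n - 1)) ≠ 0 := by norm_num
  have dW : (0 : ℤ) * 0 - (-1) * 3 ^ n ≠ 0 := by
    intro h
    apply hpow1
    linarith
  have dx : (-1 : ℤ) * 1 - 0 * 0 ≠ 0 := by norm_num
  -- the relations of COM in a convenient form
  have cts : ∀ X : ℤ → ℤ → ℂ, Sym3 0 n X →
      EqC (act 3 1 0 3 (act 1 0 (3 ^ (n - 1)) 1 X)) (act 1 0 (3 ^ (n - 1)) 1 (act 3 1 0 3 X)) ∧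
      EqC (act 3 2 0 3 (act 1 0 (3 ^ (n - 1)) 1 X)) (act 1 0 (3 ^ (n - 1)) 1 (act 3 2 0 3 X)) ∧
      EqC (act 3 1 0 3 (act 1 0 (2 * 3 ^ (n - 1)) 1 X))
        (act 1 0 (2 * 3 ^ (n - 1)) 1 (act 3 1 0 3 X)) ∧
      EqC (act 3 2 0 3 (act 1 0 (2 * 3 ^ (n - 1)) 1 X))
        (act 1 0 (2 * 3 ^ (n - 1)) 1 (act 3 2 0 3 X)) := by
    intro X hX
    have h := (hCom n X hn hX).2.2.2.2.2.2.1
    have h1 := h 1 1
    have h2 := h 2 1
    rw [one_mul] at h1 h2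
    exact ⟨h1, h2, h 1 2, h 2 2⟩
  have rt1 : ∀ X : ℤ → ℤ → ℂ, Sym3 0 n X → EqC (act 3 (-1) 0 3 X) (act 3 2 0 3 X) := by
    intro X hX
    have h := (hCom n X hn hX).2.2.2.2.2.2.2.2.2.2.2.2.1 (-1)
    rw [show (-1 : ℤ) + 3 = 2 by norm_num] at h
    exact h.symm
  have rt2 : ∀ X : ℤ → ℤ → ℂ, Sym3 0 n X → EqC (act 3 (-2) 0 3 X) (act 3 1 0 3 X) := by
    intro X hX
    have h := (hCom n X hn hX).2.2.2.2.2.2.2.2.2.2.2.2.1 (-2)
    rw [show (-2 : ℤ) + 3 = 1 by norm_num] at h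
    exact h.symm
  have rs1 : ∀ X : ℤ → ℤ → ℂ, Sym3 0 n X →
      EqC (act 1 0 (-1 * 3 ^ (n - 1)) 1 X) (act 1 0 (2 * 3 ^ (n - 1)) 1 X) := by
    intro X hX
    have h := (hCom n X hn hX).2.2.2.2.2.2.2.2.2.2.2.2.2 (-1)
    rw [show (-1 : ℤ) + 3 = 2 by norm_num] at h
    exact h.symm
  have rs2 : ∀ X : ℤ → ℤ → ℂ, Sym3 0 n X →
      EqC (act 1 0 (-2 * 3 ^ (n - 1)) 1 X) (act 1 0 (3 ^ (n - 1)) 1 X) := by
    intro X hX
    have h := (hCom n X hn hX).2.2.2.2.2.2.2.2.2.2.2.2.2 (-2)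
    rw [show (-2 : ℤ) + 3 = 1 by norm_num, one_mul] at h
    exact h.symm
  -- the symbols
  set A : ℤ → ℤ → ℂ := (1 / 3 : ℂ) • (G + act 3 1 0 3 G + act 3 2 0 3 G) with hA
  set B : ℤ → ℤ → ℂ := G - A with hB
  set C : ℤ → ℤ → ℂ := (1 / 3 : ℂ) •
    (B + act 1 0 (3 ^ (n - 1)) 1 B + act 1 0 (2 * 3 ^ (n - 1)) 1 B) with hC
  set E : ℤ → ℤ → ℂ := B - C with hE
  set F : ℤ → ℤ → ℂ := (1 / 2 : ℂ) • (E + κ • act 0 (-1) (3 ^ n) 0 E) with hF
  set G1 : ℤ → ℤ → ℂ := (1 / 2 : ℂ) • (F - act (-1) 0 0 1 F) with hG1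
  have sA : Sym3 0 n A :=
    ((hG.add (hNrm n G hn2 hG).2.1).add (hNrm n G hn2 hG).2.2.1).smul _
  have sB : Sym3 0 n B := hG.sub sA
  have sC : Sym3 0 n C :=
    ((sB.add (hNrm n B hn2 sB).2.2.2.1).add (hNrm n B hn2 sB).2.2.2.2.1).smul _
  have sE : Sym3 0 n E := sB.sub sC
  have sF : Sym3 0 n F := (sE.add ((hNrm n E hn2 sE).1.smul κ)).smul _
  have sG1 : Sym3 0 n G1 := (sF.sub (hNrm n F hn2 sF).2.2.2.2.2).smul _
  -- averages
  have pA := proj dt (hCom n G hn hG).1 (hCom n G hn hG).2.1 (hCom n A hn sA).1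
  have pC := proj ds (hCom n B hn sB).2.2.1 (hCom n B hn sB).2.2.2.1 (hCom n C hn sC).2.2.1
  have tA : EqC (act 3 1 0 3 A) A := pA.1
  have tB : EqC (B + act 3 1 0 3 B + act 3 2 0 3 B) 0 := pA.2
  have sCC : EqC (act 1 0 (3 ^ (n - 1)) 1 C) C := pC.1
  have sEE : EqC (E + act 1 0 (3 ^ (n - 1)) 1 E + act 1 0 (2 * 3 ^ (n - 1)) 1 E) 0 := pC.2
  have tC : EqC (C + act 3 1 0 3 C + act 3 2 0 3 C) 0 := by
    obtain ⟨c1, c2, c3, c4⟩ := cts B sB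
    have h1 := av_comm ds tB c1 c2
    have h2 := av_comm ds2 tB c3 c4
    exact av_smul (1 / 3 : ℂ) (av_add (av_add tB h1) h2)
  have tE : EqC (E + act 3 1 0 3 E + act 3 2 0 3 E) 0 := av_sub tB tC
  have WF : EqC (act 0 (-1) (3 ^ n) 0 F) (κ • F) := by
    have h1 : EqC (act 0 (-1) (3 ^ n) 0 (κ • act 0 (-1) (3 ^ n) 0 E)) (κ • E) := by
      rw [act_smul]
      exact (hCom n E hn sE).2.2.2.2.1.smul κ
    have h2 := avg_add (EqC.refl (act 0 (-1) (3 ^ n) 0 E)) h1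
    exact alg1 hκ E (act 0 (-1) (3 ^ n) 0 E) ▸ h2
  have tF : EqC (F + act 3 1 0 3 F + act 3 2 0 3 F) 0 := by
    have c := (hCom n E hn sE).2.2.2.2.2.2.2.1
    have c1 : EqC (act 3 1 0 3 (act 0 (-1) (3 ^ n) 0 E))
        (act 0 (-1) (3 ^ n) 0 (act 1 0 (2 * 3 ^ (n - 1)) 1 E)) :=
      (c 1).trans ((rs1 E sE).act dW)
    have c2 : EqC (act 3 2 0 3 (act 0 (-1) (3 ^ n) 0 E))
        (act 0 (-1) (3 ^ n) 0 (act 1 0 (3 ^ (n - 1)) 1 E)) :=
      (c 2).trans ((rs2 E sE).act dW)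
    exact av_smul (1 / 2 : ℂ) (av_add tE (av_smul κ (av_swap dW sEE c1 c2)))
  have sFF : EqC (F + act 1 0 (3 ^ (n - 1)) 1 F + act 1 0 (2 * 3 ^ (n - 1)) 1 F) 0 := by
    have c := (hCom n E hn sE).2.2.2.2.2.2.2.2.1
    have c1 : EqC (act 1 0 (3 ^ (n - 1)) 1 (act 0 (-1) (3 ^ n) 0 E))
        (act 0 (-1) (3 ^ n) 0 (act 3 2 0 3 E)) := by
      have h := c 1
      rw [one_mul] at h
      exact h.trans ((rt1 E sE).act dW)
    have c2 : EqC (act 1 0 (2 * 3 ^ (n - 1)) 1 (act 0 (-1) (3 ^ n) 0 E))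
        (act 0 (-1) (3 ^ n) 0 (act 3 1 0 3 E)) :=
      (c 2).trans ((rt2 E sE).act dW)
    exact av_smul (1 / 2 : ℂ) (av_add sEE (av_smul κ (av_swap dW tE c1 c2)))
  have xG1 : EqC (act (-1) 0 0 1 G1) (-G1) :=
    swap_sub (EqC.refl (act (-1) 0 0 1 F)) (hCom n F hn sF).2.2.2.2.2.1
  have tG1 : EqC (G1 + act 3 1 0 3 G1 + act 3 2 0 3 G1) 0 := by
    have c := (hCom n F hn sF).2.2.2.2.2.2.2.2.2.1
    have c1 : EqC (act 3 1 0 3 (act (-1) 0 0 1 F)) (act (-1) 0 0 1 (act 3 2 0 3 F)) :=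
      (c 1).trans ((rt1 F sF).act dx)
    have c2 : EqC (act 3 2 0 3 (act (-1) 0 0 1 F)) (act (-1) 0 0 1 (act 3 1 0 3 F)) :=
      (c 2).trans ((rt2 F sF).act dx)
    exact av_smul (1 / 2 : ℂ) (av_sub tF (av_swap dx tF c1 c2))
  have sG1' : EqC (G1 + act 1 0 (3 ^ (n - 1)) 1 G1 + act 1 0 (2 * 3 ^ (n - 1)) 1 G1) 0 := by
    have c := (hCom n F hn sF).2.2.2.2.2.2.2.2.2.2.1
    have c1 : EqC (act 1 0 (3 ^ (n - 1)) 1 (act (-1) 0 0 1 F))
        (act (-1) 0 0 1 (act 1 0 (2 * 3 ^ (n - 1)) 1 F)) := by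
      have h := c 1
      rw [one_mul] at h
      exact h.trans ((rs1 F sF).act dx)
    have c2 : EqC (act 1 0 (2 * 3 ^ (n - 1)) 1 (act (-1) 0 0 1 F))
        (act (-1) 0 0 1 (act 1 0 (3 ^ (n - 1)) 1 F)) :=
      (c 2).trans ((rs2 F sF).act dx)
    exact av_smul (1 / 2 : ℂ) (av_sub sFF (av_swap dx sFF c1 c2))
  have WG1 : EqC (act 0 (-1) (3 ^ n) 0 G1) (κ • G1) := by
    have h1 : EqC (act 0 (-1) (3 ^ n) 0 (act (-1) 0 0 1 F)) (κ • act (-1) 0 0 1 F) := by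
      refine (hCom n F hn sF).2.2.2.2.2.2.2.2.2.2.2.1.trans ?_
      have := WF.act dx
      rw [act_smul] at this
      exact this
    have h2 := avg_sub WF h1
    rw [alg2] at h2
    exact h2
  have lA : Sym3 0 (n - 1) (act 0 (-1) (3 ^ n) 0 A) := (hLvl n A hn2 sA).2 tA
  have lC : Sym3 0 (n - 1) C := (hLvl n C hn2 sC).1 sCC
  refine ⟨C + κ • act 0 (-1) (3 ^ n) 0 A, G1, lC.add (lA.smul κ),
    ⟨sG1, tG1, sG1', WG1, xG1⟩, ?_⟩
  have eA := (hev A sA).1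
  have eE := (hev E sE).1
  have eF := (hev F sF).2
  have e5 : ev F = ev E := ev5 hκ ev eE
  have e6 : ev G1 = ev F := ev6 ev eF
  have e7 : ev (C + κ • act 0 (-1) (3 ^ n) 0 A) = ev C + ev A := ev7 hκ ev eA
  have e8 : ev B = ev G - ev A := by rw [hB, map_sub]
  have e9 : ev E = ev B - ev C := by rw [hE, map_sub]
  rw [e7, e6, e5, e9, e8]
  abel

private theorem jac3 {D : ℕ} (h : D % 12 = 7) : jacobiSym 3 D = -1 := by
  have h1 := jacobiSym.quadratic_reciprocity_three_mod_four (a := 3) (b := D) (by norm_num)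
    (by omega)
  have h2 : jacobiSym ((D : ℕ) : ℤ) 3 = 1 := by
    rw [jacobiSym.mod_left, show ((D : ℕ) : ℤ) % ((3 : ℕ) : ℤ) = 1 by omega]
    exact jacobiSym.one_left 3
  rw [h2] at h1
  exact_mod_cast h1

theorem hDect3 (hSgn : Sgn3) (hNrm : S3Nrm) (hLvl : S3Lvl) (hCom : S3Com) : Dect3 := by
  intro D n G hD hn hG
  have hj := jac3 hD
  have hκ : (((-1 : ℤ) ^ n : ℤ) : ℂ) * (((-1 : ℤ) ^ n : ℤ) : ℂ) = 1 := by
    rw [← Int.cast_mul, ← mul_pow]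
    norm_num
  obtain ⟨G0, G1, h0, ⟨h1, h2, h3, h4, h5⟩, h6⟩ := core hNrm hLvl hCom n
    (((-1 : ℤ) ^ n : ℤ) : ℂ) hκ (evT D) (fun X hX => by
      have h := hSgn D n X (by omega) (by omega) (by omega) hX
      refine ⟨?_, h.2⟩
      rw [h.1, hj]
      exact (Int.cast_smul_eq_zsmul ℂ _ _).symm) G hn hG
  refine ⟨G0, G1, h0, ⟨h1, h2, h3, ?_, ?_⟩, h6⟩
  · have e : -(w3 n • G1) = (((-1 : ℤ) ^ n : ℤ) : ℂ) • G1 := by
      rw [w3, neg_smul, neg_neg]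
      exact (Int.cast_smul_eq_zsmul ℂ _ _).symm
    rw [e]
    exact h4
  · rw [neg_smul, one_smul]
    exact h5

end Pool.Agent.Helper84.T3
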