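import Pool.Agent.Helper28.T3.StB

/-!
# Project T3, module FIN: positive proportion

The lemmas on `EX` are those of `Pool.Agent.Helper33.T3.M_FINq`.
-/

set_option autoImplicit false

namespace Pool.Agent.Helper84.T3

open Pool.Agent.Helper28.T3

private theorem EX_one (x : ℝ) (hx : 1 ≤ x) : 1 ≤ EX x := Real.one_le_rpow hx (by norm_num)

private theorem EX_small (K x : ℝ) (hK : 1 ≤ K) (hx : K ^ 16 ≤ x) : K * EX x ≤ x := by
  have hK0 : 0 < K := by linarith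
  have hx1 : 0 < x := lt_of_lt_of_le (by positivity) hx
  have h1 : K ≤ x ^ (1 / 16 : ℝ) := by
    have h2 := Real.rpow_le_rpow (by positivity) hx (show (0 : ℝ) ≤ 1 / 16 by norm_num)
    have h3 := Real.pow_rpow_inv_natCast (x := K) (n := 16) hK0.le (by norm_num)
    have e : (((16 : ℕ) : ℝ))⁻¹ = (1 / 16 : ℝ) := by norm_num
    rw [e] at h3
    rwa [h3] at h2
  have h4 : x = x ^ (1 / 16 : ℝ) * EX x := by
    unfold EX
    rw [← Real.rpow_add hx1]
    norm_num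
  calc K * EX x ≤ x ^ (1 / 16 : ℝ) * EX x :=
        mul_le_mul_of_nonneg_right h1 (Real.rpow_nonneg hx1.le _)
    _ = x := h4.symm

theorem hFIN : StSQF → StCNT → StAfin → StFIN := by
  intro hS hC hA
  obtain ⟨C₁, hC₁, hS⟩ := hS
  obtain ⟨C₂, hC₂, hC⟩ := hC
  obtain ⟨K, hK⟩ : ∃ K : ℝ, K = 1000 * (C₁ + C₂ + 1) := ⟨_, rfl⟩
  have hK1 : 1 ≤ K := by rw [hK]; linarith
  obtain ⟨N0, hN0⟩ := exists_nat_gt (K ^ 16)
  refine ⟨N0, fun N hN G hG => ?_⟩
  have hNR : K ^ 16 ≤ (N : ℝ) := hN0.le.trans (by exact_mod_cast hN)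
  have hNr1 : (1 : ℝ) ≤ N := (one_le_pow₀ hK1).trans hNR
  have hN1 : 1 ≤ N := by exact_mod_cast hNr1
  classical
  have hAm : ∀ D, D ∈ SQ N ↔ (D ≤ N ∧ Squarefree D ∧ D % 24 = 19) := by
    intro D
    unfold SQ
    rw [Finset.mem_filter, Finset.mem_range, Nat.lt_succ_iff]
  have h1 := hS N hN1
  obtain ⟨B, hB⟩ : ∃ B : Finset ℕ, B = (SQ N).filter fun D => (3 : ℤ) ∣ TD D := ⟨_, rfl⟩
  have hcover : SQ N ⊆ G ∪ B := by
    intro D hD
    have hD' := (hAm D).1 hD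
    rw [Finset.mem_union, hG, hB, Finset.mem_filter]
    by_cases h3 : (3 : ℤ) ∣ TD D
    · exact Or.inr ⟨hD, h3⟩
    · exact Or.inl ⟨hD'.1, hD'.2.1, hD'.2.2, h3⟩
  have hcard : ((SQ N).card : ℝ) ≤ G.card + B.card := by
    have h2 := (Finset.card_le_card hcover).trans (Finset.card_union_le _ _)
    exact_mod_cast h2
  have h2 := hC N hN1 B (by
    intro D hD
    rw [hB, Finset.mem_filter] at hD
    obtain ⟨hDA, h3⟩ := hD
    obtain ⟨hDN, hDsq, hDr⟩ := (hAm D).1 hDA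
    exact ⟨hDN, hDr, hA D hDsq hDr h3⟩)
  have h4 := EX_small K N hK1 hNR
  have h5 := EX_one (N : ℝ) hNr1
  rw [hK] at h4
  nlinarith

end Pool.Agent.Helper84.T3
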