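import Pool.Agent.Helper28.T3.StB

/-!
# Project T3, module PHI: the integral over `a`
-/

set_option autoImplicit false

open MeasureTheory Set Filter Topology

namespace Pool.Agent.Helper84.T3
open Pool.Agent.Helper28.T3

private noncomputable def GG_PHI (P Q a : ℝ) : ℝ :=
  -(Real.sqrt (P - Q * a ^ 2) / a) - Real.sqrt Q * Real.arcsin (a * Real.sqrt (Q / P))

private theorem sq_PHI {P Q a : ℝ} (hP : 0 < P) (hQ : 0 < Q) :
    (a * Real.sqrt (Q / P)) ^ 2 = Q * a ^ 2 / P := by
  rw [mul_pow, Real.sq_sqrt (div_nonneg hQ.le hP.le)]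
  ring

private theorem end_PHI {P Q a : ℝ} (hP : 0 < P) (hQ : 0 < Q) (ha : 0 < a)
    (h : P ≤ Q * a ^ 2) : GG_PHI P Q a = -(Real.pi / 2 * Real.sqrt Q) := by
  unfold GG_PHI
  have h1 : Real.sqrt (P - Q * a ^ 2) = 0 := Real.sqrt_eq_zero_of_nonpos (by linarith)
  have h2 : 1 ≤ a * Real.sqrt (Q / P) := by
    have h3 : (1 : ℝ) ^ 2 ≤ (a * Real.sqrt (Q / P)) ^ 2 := by
      rw [sq_PHI hP hQ, one_pow, le_div_iff₀ hP, one_mul]
      exact h
    exact (pow_le_pow_iff_left₀ zero_le_one (by positivity) two_ne_zero).mp h3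
  rw [h1, Real.arcsin_of_one_le h2]
  ring

private theorem cont_PHI {P Q a : ℝ} (ha : 0 < a) : ContinuousAt (GG_PHI P Q) a := by
  unfold GG_PHI
  have h1 : ContinuousAt (fun a : ℝ => Real.sqrt (P - Q * a ^ 2)) a :=
    (Real.continuous_sqrt.comp (continuous_const.sub
      (continuous_const.mul (continuous_id.pow 2)))).continuousAt
  have h2 : ContinuousAt (fun a : ℝ => Real.sqrt Q * Real.arcsin (a * Real.sqrt (Q / P))) a :=
    (continuous_const.mul (Real.continuous_arcsin.comp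
      (continuous_id.mul continuous_const))).continuousAt
  exact ((h1.div continuousAt_id ha.ne').neg).sub h2

private theorem deriv_PHI {P Q a : ℝ} (hP : 0 < P) (hQ : 0 < Q) (ha : 0 < a)
    (hne : Q * a ^ 2 ≠ P) :
    HasDerivAt (GG_PHI P Q) (Real.sqrt (P - Q * a ^ 2) / a ^ 2) a := by
  rcases lt_or_gt_of_ne hne with h | h
  · have hu : 0 < P - Q * a ^ 2 := by linarith
    have hs : 0 < Real.sqrt (P - Q * a ^ 2) := Real.sqrt_pos.mpr hu
    have d1 : HasDerivAt (fun a : ℝ => P - Q * a ^ 2) (-(Q * (2 * a))) a := by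
      have h1 := ((hasDerivAt_pow 2 a).const_mul Q).const_sub P
      simpa using h1
    have d2 := d1.sqrt hu.ne'
    have d3 := d2.div (hasDerivAt_id a) ha.ne'
    have d4 : HasDerivAt (fun a : ℝ => a * Real.sqrt (Q / P)) (1 * Real.sqrt (Q / P)) a :=
      (hasDerivAt_id a).mul_const _
    have hlt : a * Real.sqrt (Q / P) < 1 := by
      have h3 : (a * Real.sqrt (Q / P)) ^ 2 < (1 : ℝ) ^ 2 := by
        rw [sq_PHI hP hQ, one_pow, div_lt_one hP]
        exact h
      exact (pow_lt_pow_iff_left₀ (by positivity) zero_le_one two_ne_zero).mp h3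
    have hgt : -1 < a * Real.sqrt (Q / P) := lt_of_lt_of_le (by norm_num)
      (by positivity : (0 : ℝ) ≤ a * Real.sqrt (Q / P))
    have d5 := (Real.hasDerivAt_arcsin hgt.ne' hlt.ne).comp a d4
    have d6 := (d3.neg).sub (d5.const_mul (Real.sqrt Q))
    have hfun : HasDerivAt (GG_PHI P Q) _ a := d6
    refine hfun.congr_deriv ?_
    have hsq : Real.sqrt (P - Q * a ^ 2) ^ 2 = P - Q * a ^ 2 := Real.sq_sqrt hu.le
    have h7 : Real.sqrt (1 - (a * Real.sqrt (Q / P)) ^ 2) =
        Real.sqrt (P - Q * a ^ 2) / Real.sqrt P := by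
      rw [sq_PHI hP hQ, ← Real.sqrt_div hu.le]
      congr 1
      field_simp
    have hPs : 0 < Real.sqrt P := Real.sqrt_pos.mpr hP
    have h8 : Real.sqrt Q * (1 / Real.sqrt (1 - (a * Real.sqrt (Q / P)) ^ 2) *
        (1 * Real.sqrt (Q / P))) = Q / Real.sqrt (P - Q * a ^ 2) := by
      rw [h7, Real.sqrt_div hQ.le]
      have hQQ : Real.sqrt Q * Real.sqrt Q = Q := Real.mul_self_sqrt hQ.le
      field_simp
      rw [pow_two, hQQ]
    rw [h8]
    simp only [id]
    field_simp
    rw [hsq]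
    ring
  · have h1 : Real.sqrt (P - Q * a ^ 2) = 0 := Real.sqrt_eq_zero_of_nonpos (by linarith)
    rw [h1, zero_div]
    have hev : ∀ᶠ b in 𝓝 a, GG_PHI P Q b = -(Real.pi / 2 * Real.sqrt Q) := by
      have c1 : ContinuousAt (fun b : ℝ => Q * b ^ 2) a :=
        (continuous_const.mul (continuous_id.pow 2)).continuousAt
      filter_upwards [c1.eventually (lt_mem_nhds h), lt_mem_nhds ha] with b hb hb0
      exact end_PHI hP hQ hb0 (le_of_lt hb)
    exact (hasDerivAt_const a (-(Real.pi / 2 * Real.sqrt Q))).congr_of_eventuallyEq hev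

private noncomputable def ff_PHI (P Q R a : ℝ) : ℝ :=
  (Real.sqrt (P - Q * a ^ 2) - Real.sqrt (P - R * a ^ 2)) / a ^ 2

private theorem bound_PHI {P Q R : ℝ} (hP : 0 < P) (hQ : 0 < Q) (hQR : Q ≤ R) (a : ℝ) :
    0 ≤ ff_PHI P Q R a ∧ ff_PHI P Q R a ≤ 4 * R / (3 * Real.sqrt P) := by
  have hR : 0 < R := lt_of_lt_of_le hQ hQR
  have hPs : 0 < Real.sqrt P := Real.sqrt_pos.mpr hP
  have hPP : Real.sqrt P * Real.sqrt P = P := Real.mul_self_sqrt hP.le
  have hM : 0 ≤ 4 * R / (3 * Real.sqrt P) := by positivity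
  rcases eq_or_ne a 0 with rfl | ha
  · unfold ff_PHI
    simp only [ne_eq, OfNat.ofNat_ne_zero, not_false_eq_true, zero_pow, mul_zero, sub_zero,
      sub_self, div_zero, le_refl, true_and]
    exact hM
  have ha2 : 0 < a ^ 2 := by positivity
  have hmono : Real.sqrt (P - R * a ^ 2) ≤ Real.sqrt (P - Q * a ^ 2) :=
    Real.sqrt_le_sqrt (by nlinarith)
  refine ⟨div_nonneg (by linarith) ha2.le, ?_⟩
  unfold ff_PHI
  rw [div_le_div_iff₀ ha2 (by positivity)]
  rcases le_total (R * a ^ 2) (3 / 4 * P) with h | h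
  · -- both roots at least √P / 2
    have hv : 0 ≤ P - R * a ^ 2 := by linarith
    have hu : 0 ≤ P - Q * a ^ 2 := by nlinarith
    have hv2 : Real.sqrt P / 2 ≤ Real.sqrt (P - R * a ^ 2) := by
      apply Real.le_sqrt_of_sq_le
      nlinarith
    have hu2 : Real.sqrt P / 2 ≤ Real.sqrt (P - Q * a ^ 2) := hv2.trans hmono
    have e1 : (Real.sqrt (P - Q * a ^ 2) - Real.sqrt (P - R * a ^ 2)) *
        (Real.sqrt (P - Q * a ^ 2) + Real.sqrt (P - R * a ^ 2)) = (R - Q) * a ^ 2 := by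
      have s1 := Real.mul_self_sqrt hu
      have s2 := Real.mul_self_sqrt hv
      linear_combination s1 - s2
    have hd : 0 ≤ Real.sqrt (P - Q * a ^ 2) - Real.sqrt (P - R * a ^ 2) := by linarith
    have e2 : (Real.sqrt (P - Q * a ^ 2) - Real.sqrt (P - R * a ^ 2)) * Real.sqrt P ≤
        (R - Q) * a ^ 2 := by
      rw [← e1]
      exact mul_le_mul_of_nonneg_left (by linarith) hd
    nlinarith
  · have e3 : Real.sqrt (P - Q * a ^ 2) ≤ Real.sqrt P := Real.sqrt_le_sqrt (by nlinarith)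
    have e4 : 0 ≤ Real.sqrt (P - R * a ^ 2) := Real.sqrt_nonneg _
    have e5 : (Real.sqrt (P - Q * a ^ 2) - Real.sqrt (P - R * a ^ 2)) * (3 * Real.sqrt P) ≤
        Real.sqrt P * (3 * Real.sqrt P) :=
      mul_le_mul_of_nonneg_right (by linarith) (by positivity)
    nlinarith

theorem hPHI : StPHI := by
  intro P Q R hP hQ hQR
  have hR : 0 < R := lt_of_lt_of_le hQ hQR
  set M : ℝ := 4 * R / (3 * Real.sqrt P) with hM
  set aQ : ℝ := Real.sqrt (P / Q) with haQ
  have haQ0 : 0 < aQ := Real.sqrt_pos.mpr (div_pos hP hQ)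
  have haQ2 : Q * aQ ^ 2 = P := by
    rw [haQ, Real.sq_sqrt (div_pos hP hQ).le]
    field_simp
  have hmeas : Measurable (ff_PHI P Q R) := by
    unfold ff_PHI
    fun_prop
  have hzero : ∀ a ∈ Ioi aQ, ff_PHI P Q R a = 0 := by
    intro a ha
    have ha' : aQ < a := ha
    have h1 : P ≤ Q * a ^ 2 := by
      rw [← haQ2]
      have : aQ ^ 2 ≤ a ^ 2 := pow_le_pow_left₀ haQ0.le ha'.le 2
      nlinarith
    have h2 : P ≤ R * a ^ 2 := h1.trans (mul_le_mul_of_nonneg_right hQR (sq_nonneg a))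
    unfold ff_PHI
    rw [Real.sqrt_eq_zero_of_nonpos (by linarith), Real.sqrt_eq_zero_of_nonpos (by linarith)]
    simp
  have hint1 : IntegrableOn (ff_PHI P Q R) (Ioc 0 aQ) := by
    refine Measure.integrableOn_of_bounded (M := M) ?_ hmeas.aestronglyMeasurable ?_
    · simp
    · refine Eventually.of_forall fun a => ?_
      rw [Real.norm_of_nonneg (bound_PHI hP hQ hQR a).1]
      exact (bound_PHI hP hQ hQR a).2
  have hint2 : IntegrableOn (ff_PHI P Q R) (Ioi aQ) :=
    (integrableOn_zero (μ := volume)).congr_fun (fun a ha => (hzero a ha).symm) measurableSet_Ioi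
  have hU : Ioc 0 aQ ∪ Ioi aQ = Ioi (0 : ℝ) := Ioc_union_Ioi_eq_Ioi haQ0.le
  have hint : IntegrableOn (ff_PHI P Q R) (Ioi 0) := by
    rw [← hU]
    exact hint1.union hint2
  refine ⟨hint, ?_⟩
  show ∫ a in Ioi (0 : ℝ), ff_PHI P Q R a = _
  have hI1 : ∫ a in Ioi (0 : ℝ), ff_PHI P Q R a = ∫ a in (0 : ℝ)..aQ, ff_PHI P Q R a := by
    rw [intervalIntegral.integral_of_le haQ0.le, ← hU,
      setIntegral_union (Ioc_disjoint_Ioi le_rfl) measurableSet_Ioi hint1 hint2,
      setIntegral_congr_fun measurableSet_Ioi hzero]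
    simp
  rw [hI1]
  -- the primitive
  set g : ℝ → ℝ := fun a => GG_PHI P Q a - GG_PHI P R a with hg
  have hcont0 : ContinuousWithinAt g (Icc 0 aQ) 0 := by
    have hk : Continuous fun a : ℝ => Real.sqrt R * Real.arcsin (a * Real.sqrt (R / P)) -
        Real.sqrt Q * Real.arcsin (a * Real.sqrt (Q / P)) :=
      (continuous_const.mul (Real.continuous_arcsin.comp
        (continuous_id.mul continuous_const))).sub
        (continuous_const.mul (Real.continuous_arcsin.comp
        (continuous_id.mul continuous_const)))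
    have hge : ∀ a : ℝ, g a = -(a * ff_PHI P Q R a) +
        (Real.sqrt R * Real.arcsin (a * Real.sqrt (R / P)) -
        Real.sqrt Q * Real.arcsin (a * Real.sqrt (Q / P))) := by
      intro a
      rcases eq_or_ne a 0 with rfl | ha
      · simp [hg, GG_PHI, ff_PHI]
      · simp only [hg, GG_PHI, ff_PHI]
        field_simp
        ring
    have hlim' : Tendsto (fun a : ℝ => a * ff_PHI P Q R a) (𝓝[Icc 0 aQ] 0) (𝓝 0) := by
      have hup : Tendsto (fun a : ℝ => a * M) (𝓝[Icc 0 aQ] 0) (𝓝 0) := by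
        have : Tendsto (fun a : ℝ => a * M) (𝓝 0) (𝓝 (0 * M)) :=
          (continuous_id.mul continuous_const).tendsto 0
        rw [zero_mul] at this
        exact this.mono_left nhdsWithin_le_nhds
      refine tendsto_of_tendsto_of_tendsto_of_le_of_le' tendsto_const_nhds hup ?_ ?_
      · filter_upwards [self_mem_nhdsWithin] with a ha
        exact mul_nonneg ha.1 (bound_PHI hP hQ hQR a).1
      · filter_upwards [self_mem_nhdsWithin] with a ha
        exact mul_le_mul_of_nonneg_left (bound_PHI hP hQ hQR a).2 ha.1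
    have hlim : Tendsto (fun a : ℝ => -(a * ff_PHI P Q R a)) (𝓝[Icc 0 aQ] 0) (𝓝 0) := by
      have h1 := hlim'.neg
      rwa [neg_zero] at h1
    have h0 : g 0 = 0 := by simp [hg, GG_PHI]
    show Tendsto g (𝓝[Icc 0 aQ] 0) (𝓝 (g 0))
    rw [h0]
    have h1 := hlim.add ((hk.tendsto 0).mono_left (nhdsWithin_le_nhds (s := Icc 0 aQ)))
    have h2 : (0 : ℝ) + (Real.sqrt R * Real.arcsin (0 * Real.sqrt (R / P)) -
        Real.sqrt Q * Real.arcsin (0 * Real.sqrt (Q / P))) = 0 := by simp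
    rw [h2] at h1
    exact h1.congr fun a => (hge a).symm
  have hcont : ContinuousOn g (Icc 0 aQ) := by
    intro a ha
    rcases eq_or_lt_of_le ha.1 with h | h
    · rw [← h]
      exact hcont0
    · exact ((cont_PHI h).sub (cont_PHI h)).continuousWithinAt
  have hFT := MeasureTheory.integral_eq_of_hasDerivAt_off_countable_of_le g (ff_PHI P Q R)
    haQ0.le (s := {Real.sqrt (P / R)}) (Set.countable_singleton _) hcont ?_ ?_
  · rw [hFT]
    have e1 : g aQ = -(Real.pi / 2 * Real.sqrt Q) - -(Real.pi / 2 * Real.sqrt R) := by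
      show GG_PHI P Q aQ - GG_PHI P R aQ = _
      rw [end_PHI hP hQ haQ0 haQ2.ge, end_PHI hP hR haQ0
        (haQ2.ge.trans (mul_le_mul_of_nonneg_right hQR (sq_nonneg aQ)))]
    have e2 : g 0 = 0 := by simp [hg, GG_PHI]
    rw [e1, e2]
    ring
  · rintro a ⟨ha, ha2⟩
    have hneQ : Q * a ^ 2 ≠ P := by
      have h1 : a ^ 2 < aQ ^ 2 := pow_lt_pow_left₀ ha.2 ha.1.le two_ne_zero
      have h2 : Q * a ^ 2 < P := by
        rw [← haQ2]
        exact mul_lt_mul_of_pos_left h1 hQ
      exact h2.ne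
    have hneR : R * a ^ 2 ≠ P := by
      intro h
      apply ha2
      rw [mem_singleton_iff]
      have h1 : a ^ 2 = P / R := by
        rw [eq_div_iff hR.ne']
        linarith
      rw [← h1, Real.sqrt_sq ha.1.le]
    have h := (deriv_PHI hP hQ ha.1 hneQ).sub (deriv_PHI hP hR ha.1 hneR)
    refine h.congr_deriv ?_
    unfold ff_PHI
    ring
  · rw [intervalIntegrable_iff_integrableOn_Ioc_of_le haQ0.le]
    exact hint1

end Pool.Agent.Helper84.T3
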